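import Pool.Agent.LibNG38.GK4

set_option autoImplicit false

open Matrix MeasureTheory Topology Filter

namespace LibNC38

/-- entries of `t tᵀ` for a lower triangular matrix `t` -/
private theorem NE0_entry {n : ℕ} (t : Mt n) (ht : ∀ i j, i < j → t i j = 0) (i j : Fin n) :
    (t * tᵀ) i j = (∑ k ∈ Finset.univ.filter (fun k => k < j), t i k * t j k) + t i j * t j j := by
  rw [Matrix.mul_apply]
  simp only [Matrix.transpose_apply]
  have h1 : ∑ k : Fin n, t i k * t j k
      = ∑ k ∈ Finset.univ.filter (fun k => k < j), t i k * t j k
        + ∑ k ∈ Finset.univ.filter (fun k => ¬ k < j), t i k * t j k :=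
    (Finset.sum_filter_add_sum_filter_not _ _ _).symm
  rw [h1]
  congr 1
  rw [Finset.sum_eq_single j]
  · intro k hk hkj
    simp only [Finset.mem_filter, Finset.mem_univ, true_and, not_lt] at hk
    have : j < k := lt_of_le_of_ne hk (Ne.symm hkj)
    rw [ht j k this, mul_zero]
  · intro hj
    simp at hj

private theorem NE0_tch {n : ℕ} (x : PD n) : (tch x).1 * (tch x).1ᵀ = x.1 := by
  have h := congrArg Subtype.val (tch_eq x)
  simp only [act, o, mul_one] at h
  exact h.symm

/-- entries of the Cholesky factor are continuous -/
private theorem NE0_cont {n : ℕ} (j : Fin n) :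
    ∀ i, Continuous fun x : PD n => (tch x).1 i j := by
  have key : ∀ (m : ℕ) (j : Fin n), j.1 = m → ∀ i, Continuous fun x : PD n => (tch x).1 i j := by
    intro m
    induction m using Nat.strong_induction_on with
    | _ m ih =>
      intro j hj
      have hs : ∀ i, Continuous fun x : PD n =>
          ∑ k ∈ Finset.univ.filter (fun k => k < j), (tch x).1 i k * (tch x).1 j k := by
        intro i
        refine continuous_finsetSum _ fun k hk => ?_
        simp only [Finset.mem_filter, Finset.mem_univ, true_and] at hk
        have hk' : k.1 < m := by
          rw [← hj]; exact hk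
        exact (ih k.1 hk' k rfl i).mul (ih k.1 hk' k rfl j)
      have hx : ∀ i, Continuous fun x : PD n => x.1 i j := by
        intro i
        exact (continuous_subtype_val : Continuous fun x : PD n => x.1).matrix_elem i j
      have e : ∀ (x : PD n) (i : Fin n), x.1 i j
          = (∑ k ∈ Finset.univ.filter (fun k => k < j), (tch x).1 i k * (tch x).1 j k)
            + (tch x).1 i j * (tch x).1 j j := by
        intro x i
        have h1 := NE0_entry (tch x).1 (tch_lower x) i j
        rw [NE0_tch x] at h1
        exact h1
      have hd : Continuous fun x : PD n => (tch x).1 j j := by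
        have h1 : (fun x : PD n => (tch x).1 j j) = fun x : PD n =>
            √ (x.1 j j
              - ∑ k ∈ Finset.univ.filter (fun k => k < j), (tch x).1 j k * (tch x).1 j k) := by
          funext x
          have h2 := e x j
          have h3 : x.1 j j
              - (∑ k ∈ Finset.univ.filter (fun k => k < j), (tch x).1 j k * (tch x).1 j k)
              = (tch x).1 j j ^ 2 := by
            rw [h2]; ring
          rw [h3, Real.sqrt_sq (tch_pos x j).le]
        rw [h1]
        exact ((hx j).sub (hs j)).sqrt
      intro i
      have h1 : (fun x : PD n => (tch x).1 i j) = fun x : PD n =>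
          (x.1 i j
            - ∑ k ∈ Finset.univ.filter (fun k => k < j), (tch x).1 i k * (tch x).1 j k)
            / (tch x).1 j j := by
        funext x
        have h2 := e x i
        have h4 := tch_pos x j
        rw [eq_div_iff (ne_of_gt h4)]
        rw [h2]; ring
      rw [h1]
      exact ((hx i).sub (hs i)).div hd fun x => ne_of_gt (tch_pos x j)
  exact key j.1 j rfl


theorem tch_mul {n : ℕ} (x : PD n) : (tch x).1 * (tch x).1ᵀ = x.1 := NE0_tch x

/-- the Cholesky factor is continuous -/
theorem tch_cont {n : ℕ} : Continuous fun x : PD n => tch x :=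
  Continuous.subtype_mk (continuous_matrix fun i j => NE0_cont j i) _

end LibNC38
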