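import Pool.Agent.LibNE38.E1
import Pool.Agent.LibNC27.N1a

set_option autoImplicit false

open Matrix MeasureTheory Topology Filter
open scoped Matrix.Norms.Elementwise

namespace LibNC38

/-- the symmetric metric `tr (p⁻¹ v p⁻¹ w)` as a form -/
noncomputable def gF {n : ℕ} (p : PD n) : Fm n :=
  LinearMap.mk₂ ℝ (fun v w => (p.1⁻¹ * v * (p.1⁻¹ * w)).trace)
    (by intro a b c; rw [Matrix.mul_add, Matrix.add_mul, Matrix.trace_add])
    (by intro r a c; rw [Matrix.mul_smul, Matrix.smul_mul, Matrix.trace_smul])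
    (by intro a b c; rw [Matrix.mul_add, Matrix.mul_add, Matrix.trace_add])
    (by intro r a c; rw [Matrix.mul_smul, Matrix.mul_smul, Matrix.trace_smul])

theorem gF_apply {n : ℕ} (p : PD n) (v w : Mt n) :
    gF p v w = (p.1⁻¹ * v * (p.1⁻¹ * w)).trace := rfl

theorem nrm_gF {n : ℕ} : nrm (gF : PD n → Fm n) = spd := rfl

/-- row E4a: for a tangent (even symmetric) vector `gF p v v = |v|²` -/
theorem gF_self {n : ℕ} (p : PD n) (v : Mt n) (hv : IsTan p v) : gF p v v = spd p v ^ 2 := by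
  have h0 : p = act (tch p) (o n) := tch_eq p
  -- nonnegativity by moving to the base point
  have hnn : 0 ≤ (p.1⁻¹ * v * (p.1⁻¹ * v)).trace := by
    set t := tch p with ht
    have e1 : t⁻¹.1 * t.1 = 1 := congrArg Subtype.val (inv_mul_cancel t)
    have e2 : t.1 * t⁻¹.1 = 1 := congrArg Subtype.val (mul_inv_cancel t)
    have hp : p.1 = t.1 * t.1ᵀ := (tch_mul p).symm
    have e3 : t⁻¹.1ᵀ * t.1ᵀ = 1 := by rw [← Matrix.transpose_mul, e2, Matrix.transpose_one]
    have hinv : p.1⁻¹ = t⁻¹.1ᵀ * t⁻¹.1 := by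
      apply Matrix.inv_eq_left_inv
      rw [hp]
      calc t⁻¹.1ᵀ * t⁻¹.1 * (t.1 * t.1ᵀ) = t⁻¹.1ᵀ * (t⁻¹.1 * t.1) * t.1ᵀ := by
            simp only [Matrix.mul_assoc]
        _ = 1 := by rw [e1, Matrix.mul_one, e3]
    set W := t⁻¹.1 * v * t⁻¹.1ᵀ with hW
    have hWs : Wᵀ = W := by
      rw [hW, Matrix.transpose_mul, Matrix.transpose_mul, Matrix.transpose_transpose, hv.1,
        Matrix.mul_assoc]
    have e4 : (p.1⁻¹ * v * (p.1⁻¹ * v)).trace = (W * Wᵀ).trace := by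
      rw [hWs, hinv, hW]
      have : t⁻¹.1ᵀ * t⁻¹.1 * v * (t⁻¹.1ᵀ * t⁻¹.1 * v) =
          t⁻¹.1ᵀ * (t⁻¹.1 * v * t⁻¹.1ᵀ * (t⁻¹.1 * v)) := by simp only [Matrix.mul_assoc]
      rw [this, Matrix.trace_mul_comm]
      simp only [Matrix.mul_assoc]
    rw [e4, Matrix.trace]
    refine Finset.sum_nonneg fun i _ => ?_
    rw [Matrix.diag_apply, Matrix.mul_apply]
    exact Finset.sum_nonneg fun j _ => by rw [Matrix.transpose_apply]; exact mul_self_nonneg _
  rw [gF_apply, spd, Real.sq_sqrt hnn]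

/-- finite linear combinations of forms -/
theorem fmOK_add {n : ℕ} (Γ : Subgroup (SL n)) (κ κ' : PD n → Fm n) (h : FmOK Γ κ)
    (h' : FmOK Γ κ') : FmOK Γ (fun p => κ p + κ' p) := by
  refine ⟨fun v w => ?_, fun p v w => ?_, fun γ hγ p v hv => ?_⟩
  · exact (h.cont v w).add (h'.cont v w)
  · show κ p v w + κ' p v w = κ p w v + κ' p w v
    rw [h.symm, h'.symm]
  · show κ _ _ _ + κ' _ _ _ = κ p v v + κ' p v v
    rw [h.inv γ hγ p v hv, h'.inv γ hγ p v hv]

theorem fmOK_smul {n : ℕ} (Γ : Subgroup (SL n)) (κ : PD n → Fm n) (h : FmOK Γ κ) (r : ℝ) :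
    FmOK Γ (fun p => r • κ p) := by
  refine ⟨fun v w => ?_, fun p v w => ?_, fun γ hγ p v hv => ?_⟩
  · exact continuous_const.mul (h.cont v w)
  · show r * κ p v w = r * κ p w v
    rw [h.symm]
  · show r * κ _ _ _ = r * κ p v v
    rw [h.inv γ hγ p v hv]

theorem fmOK_zero {n : ℕ} (Γ : Subgroup (SL n)) : FmOK Γ (fun _ => (0 : Fm n)) :=
  ⟨fun _ _ => continuous_const, fun _ _ _ => rfl, fun _ _ _ _ _ => rfl⟩

theorem fmOK_sum {n m : ℕ} (Γ : Subgroup (SL n)) (κ : Fin m → PD n → Fm n)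
    (h : ∀ i, FmOK Γ (κ i)) (a : Fin m → ℝ) : FmOK Γ (fun p => ∑ i, a i • κ i p) := by
  classical
  have : ∀ s : Finset (Fin m), FmOK Γ (fun p => ∑ i ∈ s, a i • κ i p) := by
    intro s
    induction s using Finset.induction_on with
    | empty => simpa using fmOK_zero Γ
    | insert i s hi ih =>
      simp only [Finset.sum_insert hi]
      exact fmOK_add Γ _ _ (fmOK_smul Γ _ (h i) (a i)) ih
  exact this _

/-- the symmetric metric is an invariant form -/
theorem fmOK_gF {n : ℕ} (Γ : Subgroup (SL n)) : FmOK Γ (gF : PD n → Fm n) := by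
  refine ⟨fun v w => ?_, fun p v w => ?_, fun γ _ p v hv => ?_⟩
  · have hi : Continuous fun p : PD n => p.1⁻¹ := by
      have : ∀ p : PD n, p.1⁻¹ = p.1.adjugate := by
        intro p
        rw [Matrix.inv_def, p.2.2, Ring.inverse_one, one_smul]
      simp only [this]
      exact continuous_subtype_val.matrix_adjugate
    exact ((hi.matrix_mul continuous_const).matrix_mul (hi.matrix_mul continuous_const)).matrix_trace
  · rw [gF_apply, gF_apply, Matrix.trace_mul_comm]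
  · rw [gF_self _ _ (tan_facts.2.1 γ p v hv), gF_self _ _ hv, spd_facts.1]

theorem c2F_add {n : ℕ} (κ κ' : PD n → Fm n) (h : LibNC27.C2F κ) (h' : LibNC27.C2F κ') :
    LibNC27.C2F (fun p => κ p + κ' p) := by
  obtain ⟨U, K, hU, hK, hc⟩ := h
  obtain ⟨U', K', hU', hK', hc'⟩ := h'
  refine ⟨U ∩ U', fun p => K p + K' p, hU.inter hU', fun p => ⟨⟨(hK p).1, (hK' p).1⟩, ?_⟩,
    fun v w => ?_⟩
  · show K p.1 + K' p.1 = κ p + κ' p
    rw [(hK p).2, (hK' p).2]
  · exact ((hc v w).mono Set.inter_subset_left).add ((hc' v w).mono Set.inter_subset_right)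

theorem c2F_smul {n : ℕ} (κ : PD n → Fm n) (h : LibNC27.C2F κ) (r : ℝ) :
    LibNC27.C2F (fun p => r • κ p) := by
  obtain ⟨U, K, hU, hK, hc⟩ := h
  refine ⟨U, fun p => r • K p, hU, fun p => ⟨(hK p).1, ?_⟩, fun v w => ?_⟩
  · show r • K p.1 = r • κ p
    rw [(hK p).2]
  · exact contDiffOn_const.mul (hc v w)

theorem c2F_zero {n : ℕ} : LibNC27.C2F (fun _ : PD n => (0 : Fm n)) :=
  ⟨Set.univ, fun _ => 0, isOpen_univ, fun _ => ⟨Set.mem_univ _, rfl⟩, fun _ _ => contDiffOn_const⟩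

theorem c2F_sum {n m : ℕ} (κ : Fin m → PD n → Fm n) (h : ∀ i, LibNC27.C2F (κ i))
    (a : Fin m → ℝ) : LibNC27.C2F (fun p => ∑ i, a i • κ i p) := by
  classical
  have : ∀ s : Finset (Fin m), LibNC27.C2F (fun p => ∑ i ∈ s, a i • κ i p) := by
    intro s
    induction s using Finset.induction_on with
    | empty => simpa using c2F_zero
    | insert i s hi ih =>
      simp only [Finset.sum_insert hi]
      exact c2F_add _ _ (c2F_smul _ (h i) (a i)) ih
  exact this _

end LibNC38
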