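import Pool.Agent.LibNE38.E1
import Pool.Agent.LibNV38.V6
import Pool.Agent.LibNC27.N1b
import Pool.Agent.LibNC27.N2
import Pool.Agent.LibNC27.R3
import Pool.Agent.LibNC27.V11
import Pool.Agent.LibNC27.V12

set_option autoImplicit false

open Matrix MeasureTheory Topology Filter

namespace LibNC38

/-- The first order term of a deformation of the symmetric metric through metrics without conjugate
points is trivial. -/
theorem defo_triv {n : ℕ} (hn : 3 ≤ n) (Γ : Subgroup (SL n)) (hd : Disc Γ) (hc : Coc Γ)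
    (κ : PD n → Fm n) (h : ℕ → PD n → Fm n) (δ : ℕ → ℝ) (hD : Defo Γ κ h δ)
    (hκ : LibNC27.C2F κ) : Triv Γ κ := by
  obtain ⟨V, Jt, hV, hg, hk, hs, hJt, ho⟩ := LibNC27.amb_exists κ hκ
  obtain ⟨J, J1, J2, hJ, HJ⟩ := LibNC27.jm_exists Γ κ hD.kap V Jt hV hg hk hs hJt ho
  obtain ⟨A, A1, A2, hA, hA1, hA2, HA⟩ := LibNC27.ab_of_jm Γ hc J J1 J2 HJ
  have hAJ : ∀ v w g, A v w g = Jf κ (dm v) (dm w) g := by
    intro v w g
    rw [hA, hJ]; rfl
  have hF := flat_S hn Γ hd hc κ h δ hD A A1 A2 HA hAJ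
  obtain ⟨u, T, c, hP⟩ := LibNC27.pot_exists hn Γ hc A A1 A2 HA hF
  obtain ⟨S, hS, hSu⟩ := LibNC27.S_exists hn Γ hc J J1 J2 HJ A A1 hA hA1 u T c hP
  obtain ⟨hSc, hSΓ, hSk, hSd⟩ := LibNC27.S_facts Γ A A1 u T c hP S hS hSu
  refine triv_of_S Γ κ S c hSc hSΓ hSk fun g v t => ?_
  have := hSd g v t
  rw [hAJ] at this
  exact this

end LibNC38
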