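import Pool.Agent.LibNE38.E0

set_option autoImplicit false

open Matrix MeasureTheory Topology Filter

namespace LibNC38

/-- velocity of the geodesic `s ↦ act g (sg (s • z))` -/
noncomputable def gvel {n : ℕ} (g : SL n) (z : V0 n) (s : ℝ) : Mt n :=
  g.1 * vel (s • z) z * g.1ᵀ

/-- `κ` is a trivial deformation of the symmetric metric: a constant multiple of the metric plus
the symmetrized covariant derivative of an invariant continuous `1`-form `ξ`, i.e.
`d/ds ξ(c') = κ(c', c') - c |c'|²` along every geodesic `c` of the symmetric metric. -/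
def Triv {n : ℕ} (Γ : Subgroup (SL n)) (κ : PD n → Fm n) : Prop :=
  ∃ (c : ℝ) (ξ : PD n → Mt n →ₗ[ℝ] ℝ), (∀ v, Continuous fun p => ξ p v) ∧
    (∀ γ ∈ Γ, ∀ p v, IsTan p v → ξ (act γ p) (γ.1 * v * γ.1ᵀ) = ξ p v) ∧
    ∀ (g : SL n) (z : V0 n) (s : ℝ),
      HasDerivAt (fun s => ξ (act g (sg (s • z))) (gvel g z s))
        (κ (act g (sg (s • z))) (gvel g z s) (gvel g z s) -
          c * spd (act g (sg (s • z))) (gvel g z s) ^ 2) s

private theorem NE1_vel {n : ℕ} (y z : V0 n) :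
    vel y z = (dgm y).1 * ((2 : ℝ) • dm z) * (dgm y).1ᵀ := by
  unfold vel dm
  show _ = Matrix.diagonal _ * _ * (Matrix.diagonal _)ᵀ
  rw [Matrix.diagonal_transpose]
  ext i j
  rw [Matrix.mul_diagonal, Matrix.diagonal_mul, Matrix.smul_apply, smul_eq_mul]
  by_cases hij : i = j
  · subst hij
    rw [Matrix.diagonal_apply_eq, Matrix.diagonal_apply_eq]
    have : Real.exp (2 * y.1 i) = Real.exp (y.1 i) * Real.exp (y.1 i) := by
      rw [← Real.exp_add]; ring_nf
    rw [this]; ring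
  · rw [Matrix.diagonal_apply_ne _ hij, Matrix.diagonal_apply_ne _ hij]; ring

private theorem NE1_gvel {n : ℕ} (g : SL n) (z : V0 n) (s : ℝ) :
    gvel g z s = (g * dgm (s • z)).1 * ((2 : ℝ) • dm z) * (g * dgm (s • z)).1ᵀ := by
  have h : (g * dgm (s • z)).1 = g.1 * (dgm (s • z)).1 := rfl
  rw [gvel, NE1_vel, h, Matrix.transpose_mul]
  simp only [Matrix.mul_assoc]

private theorem NE1_pt {n : ℕ} (g : SL n) (y : V0 n) :
    act g (sg y) = act (g * dgm y) (o n) := by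
  rw [act_facts.2.1]; rfl

private theorem NE1_inv {n : ℕ} (h : SL n) : h⁻¹.1 * h.1 = 1 := by
  have := congrArg Subtype.val (inv_mul_cancel h)
  exact this

private theorem NE1_inv' {n : ℕ} (h : SL n) : h.1 * h⁻¹.1 = 1 := by
  have := congrArg Subtype.val (mul_inv_cancel h)
  exact this

/-- two group elements with the same image differ by an orthogonal matrix -/
private theorem NE1_orth {n : ℕ} (h t : SL n) (e : act h (o n) = act t (o n)) :
    (t⁻¹ * h).1 * (t⁻¹ * h).1ᵀ = 1 := by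
  have e1 : h.1 * 1 * h.1ᵀ = t.1 * 1 * t.1ᵀ := congrArg Subtype.val e
  rw [Matrix.mul_one, Matrix.mul_one] at e1
  have h2 : (t⁻¹ * h).1 = t⁻¹.1 * h.1 := rfl
  rw [h2, Matrix.transpose_mul]
  calc t⁻¹.1 * h.1 * (h.1ᵀ * t⁻¹.1ᵀ) = t⁻¹.1 * (h.1 * h.1ᵀ) * t⁻¹.1ᵀ := by
        simp only [Matrix.mul_assoc]
    _ = (t⁻¹.1 * t.1) * (t⁻¹.1 * t.1)ᵀ := by
        rw [e1, Matrix.transpose_mul]; simp only [Matrix.mul_assoc]
    _ = 1 := by rw [NE1_inv, Matrix.transpose_one, Matrix.mul_one]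

/-- the value of the `1`-form computed with any frame -/
private theorem NE1_val {n : ℕ} (S : SL n → Mt n)
    (hSk : ∀ g k : SL n, k.1 * k.1ᵀ = 1 → S (g * k) = k.1ᵀ * S g * k.1)
    (h t : SL n) (e : act h (o n) = act t (o n)) (w : Mt n) :
    (S t * (t⁻¹.1 * (h.1 * w * h.1ᵀ) * t⁻¹.1ᵀ)).trace = (S h * w).trace := by
  have ho := NE1_orth h t e
  have h1 : S h = (t⁻¹ * h).1ᵀ * S t * (t⁻¹ * h).1 := by
    have := hSk t (t⁻¹ * h) ho
    rwa [mul_inv_cancel_left] at this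
  have h2 : (t⁻¹ * h).1 = t⁻¹.1 * h.1 := rfl
  have h3 : t⁻¹.1 * (h.1 * w * h.1ᵀ) * t⁻¹.1ᵀ = (t⁻¹ * h).1 * w * (t⁻¹ * h).1ᵀ := by
    rw [h2, Matrix.transpose_mul]; simp only [Matrix.mul_assoc]
  rw [h3, h1]
  have h4 : (S t * ((t⁻¹ * h).1 * w * (t⁻¹ * h).1ᵀ)).trace =
      (((t⁻¹ * h).1ᵀ * (S t * (t⁻¹ * h).1)) * w).trace := by
    rw [← Matrix.mul_assoc, Matrix.trace_mul_comm]
    simp only [Matrix.mul_assoc]
  rw [h4]
  simp only [Matrix.mul_assoc]

/-- The `1`-form of a trivial deformation from its coefficients `S` in the frames. -/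
theorem triv_of_S {n : ℕ} (Γ : Subgroup (SL n)) (κ : PD n → Fm n) (S : SL n → Mt n) (c : ℝ)
    (hSc : ∀ a b, Continuous fun g => S g a b) (hSΓ : ∀ γ ∈ Γ, ∀ g, S (γ * g) = S g)
    (hSk : ∀ g k : SL n, k.1 * k.1ᵀ = 1 → S (g * k) = k.1ᵀ * S g * k.1)
    (hSd : ∀ (g : SL n) (v : V0 n) (t : ℝ),
      HasDerivAt (fun t : ℝ => (S (g * dgm (t • v)) * dm v).trace)
        (Jf κ (dm v) (dm v) (g * dgm (t • v)) - c * ‖v‖ ^ 2) t) : Triv Γ κ := by
  let ξ : PD n → Mt n →ₗ[ℝ] ℝ := fun p =>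
    { toFun := fun w => 2 * (S (tch p) * ((tch p)⁻¹.1 * w * (tch p)⁻¹.1ᵀ)).trace
      map_add' := by
        intro a b
        rw [Matrix.mul_add, Matrix.add_mul, Matrix.mul_add, Matrix.trace_add]; ring
      map_smul' := by
        intro r a
        rw [Matrix.mul_smul, Matrix.smul_mul, Matrix.mul_smul, Matrix.trace_smul, smul_eq_mul,
          RingHom.id_apply, smul_eq_mul]; ring }
  have hξ : ∀ p w, ξ p w = 2 * (S (tch p) * ((tch p)⁻¹.1 * w * (tch p)⁻¹.1ᵀ)).trace :=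
    fun p w => rfl
  have hval : ∀ (h : SL n) (w : Mt n), ξ (act h (o n)) (h.1 * w * h.1ᵀ) = 2 * (S h * w).trace := by
    intro h w
    rw [hξ, NE1_val S hSk h (tch (act h (o n))) (tch_eq _) w]
  have hSC : Continuous fun g => S g := continuous_matrix hSc
  refine ⟨c, ξ, ?_, ?_, ?_⟩
  · intro v
    have h1 : Continuous fun p : PD n => S (tch p) := hSC.comp tch_cont
    have h2 : Continuous fun p : PD n => (tch p)⁻¹ := tch_cont.inv
    have h3 : Continuous fun p : PD n => (tch p)⁻¹.1 := continuous_subtype_val.comp h2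
    exact continuous_const.mul
      ((h1.matrix_mul ((h3.matrix_mul continuous_const).matrix_mul h3.matrix_transpose)).matrix_trace)
  · intro γ hγ p v _
    have h0 : p = act (tch p) (o n) := tch_eq p
    set t := tch p with ht
    have h1 : act γ p = act (γ * t) (o n) := by rw [act_facts.2.1, ← h0]
    have h2 : γ.1 * v * γ.1ᵀ = (γ * t).1 * (t⁻¹.1 * v * t⁻¹.1ᵀ) * (γ * t).1ᵀ := by
      have e : (γ * t).1 = γ.1 * t.1 := rfl
      have e2 : t.1 * t⁻¹.1 = 1 := NE1_inv' t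
      have e3 : t⁻¹.1ᵀ * t.1ᵀ = 1 := by
        rw [← Matrix.transpose_mul, e2, Matrix.transpose_one]
      rw [e, Matrix.transpose_mul]
      calc γ.1 * v * γ.1ᵀ = γ.1 * (1 * v * 1) * γ.1ᵀ := by
            rw [Matrix.one_mul, Matrix.mul_one]
        _ = γ.1 * ((t.1 * t⁻¹.1) * v * (t⁻¹.1ᵀ * t.1ᵀ)) * γ.1ᵀ := by rw [e2, e3]
        _ = _ := by simp only [Matrix.mul_assoc]
    rw [h1, h2, hval, hSΓ γ hγ, hξ]
  · intro g z s
    have h1 : (fun s => ξ (act g (sg (s • z))) (gvel g z s)) =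
        fun s => 4 * (S (g * dgm (s • z)) * dm z).trace := by
      funext s
      rw [NE1_pt, NE1_gvel, hval, Matrix.mul_smul, Matrix.trace_smul, smul_eq_mul]
      ring
    have h2 : κ (act g (sg (s • z))) (gvel g z s) (gvel g z s) =
        4 * Jf κ (dm z) (dm z) (g * dgm (s • z)) := by
      rw [NE1_pt, NE1_gvel, Jf]
      rw [Matrix.mul_smul, Matrix.smul_mul]
      rw [map_smul, map_smul, LinearMap.smul_apply, smul_eq_mul, smul_eq_mul]
      ring
    have h3 : spd (act g (sg (s • z))) (gvel g z s) ^ 2 = 4 * ‖z‖ ^ 2 := by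
      rw [NE1_pt, NE1_gvel, spd_facts.1]
      have hs : ((2 : ℝ) • dm z)ᵀ = (2 : ℝ) • dm z := by
        rw [Matrix.transpose_smul, dm, Matrix.diagonal_transpose]
      rw [spd_facts.2.1 _ hs, Real.sq_sqrt (by positivity)]
      have h4 : ∀ i, ∑ j, (((2 : ℝ) • dm z) i j) ^ 2 = 4 * (z.1 i) ^ 2 := by
        intro i
        rw [Finset.sum_eq_single i]
        · rw [Matrix.smul_apply, dm, Matrix.diagonal_apply_eq, smul_eq_mul]; ring
        · intro j _ hj
          rw [Matrix.smul_apply, dm, Matrix.diagonal_apply_ne _ hj.symm, smul_zero]; norm_num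
        · intro h; exact absurd (Finset.mem_univ i) h
      simp only [h4]
      rw [← Finset.mul_sum]
      congr 1
      have h5 : ‖z‖ = ‖z.1‖ := rfl
      rw [h5, EuclideanSpace.norm_eq, Real.sq_sqrt (by positivity)]
      refine Finset.sum_congr rfl fun i _ => ?_
      rw [Real.norm_eq_abs, sq_abs]
    rw [h1, h2, h3]
    have h6 := (hSd g z s).const_mul 4
    have h7 : 4 * (Jf κ (dm z) (dm z) (g * dgm (s • z)) - c * ‖z‖ ^ 2) =
        4 * Jf κ (dm z) (dm z) (g * dgm (s • z)) - c * (4 * ‖z‖ ^ 2) := by ring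
    rw [h7] at h6
    exact h6

end LibNC38
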