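import Pool.Agent.LibNE38.E3
import Pool.Agent.LibNE38.E4

set_option autoImplicit false

open Matrix MeasureTheory Topology Filter

namespace LibNC38

/-- Cones around (infinite dimensional) uniformly compact families of nontrivial deformations. -/
theorem cpt_fam {n : ℕ} (hn : 3 ≤ n) (Γ : Subgroup (SL n)) (hd : Disc Γ) (hc : Coc Γ)
    (K : Set (PD n → Fm n)) (hK : ∀ κ ∈ K, FmOK Γ κ ∧ LibNC27.C2F κ ∧ ¬ Triv Γ κ)
    (hcp : ∀ κ : ℕ → PD n → Fm n, (∀ j, κ j ∈ K) → ∃ κ₀ ∈ K, ∃ s : ℕ → ℕ, StrictMono s ∧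
      ∀ ε > 0, ∀ᶠ j in atTop, ∀ x v, IsTan x v →
        |κ (s j) x v v - κ₀ x v v| ≤ ε * gF x v v) :
    ∃ ε > 0, ∀ κ ∈ K, ∀ δ : ℝ, 0 < δ → δ ≤ ε → ∀ h : PD n → Fm n, FmOK Γ h →
      (∀ x v, IsTan x v → |h x v v - gF x v v - δ * κ x v v| ≤ ε * δ * gF x v v) →
      ¬ NoConj (dN (nrm h)) := by
  by_contra hcon
  push Not at hcon
  have hex : ∀ k : ℕ, ∃ (κ : PD n → Fm n) (δ : ℝ) (h : PD n → Fm n), κ ∈ K ∧ 0 < δ ∧
      δ ≤ 1 / ((k : ℝ) + 1) ∧ FmOK Γ h ∧ (∀ x v, IsTan x v →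
        |h x v v - gF x v v - δ * κ x v v| ≤ 1 / ((k : ℝ) + 1) * δ * gF x v v) ∧
      NoConj (dN (nrm h)) := by
    intro k
    obtain ⟨κ, h1, δ, h2, h3, h, h4, h5, h6⟩ := hcon (1 / ((k : ℝ) + 1)) (by positivity)
    exact ⟨κ, δ, h, h1, h2, h3, h4, h5, h6⟩
  choose κ δ h hκK hδ0 hδ1 ho hh han using hex
  obtain ⟨κ₀, hκ₀, s, hs, hsl⟩ := hcp κ hκK
  have hlim : Tendsto δ atTop (𝓝 0) :=
    squeeze_zero (fun k => (hδ0 k).le) hδ1 tendsto_one_div_add_atTop_nhds_zero_nat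
  apply (hK κ₀ hκ₀).2.2
  refine defo_triv hn Γ hd hc κ₀ (fun k => h (s k)) (fun k => δ (s k))
    ⟨fun k => hδ0 _, hlim.comp hs.tendsto_atTop, (hK κ₀ hκ₀).1,
      fun k => ho _, fun ε hε => ?_, fun k => han _⟩ (hK κ₀ hκ₀).2.1
  have hev2 : ∀ᶠ k in atTop, 1 / ((s k : ℝ) + 1) < ε / 2 :=
    ((tendsto_one_div_add_atTop_nhds_zero_nat (𝕜 := ℝ)).comp hs.tendsto_atTop).eventually
      (gt_mem_nhds (show (0 : ℝ) < ε / 2 by positivity))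
  filter_upwards [hsl (ε / 2) (by positivity), hev2] with k hk hk2 x v hv
  have hp := hδ0 (s k)
  have h1 := hh (s k) x v hv
  have h2 := hk x v hv
  rw [gF_self x v hv] at h1 h2
  have h3 : h (s k) x v v - spd x v ^ 2 - δ (s k) * κ₀ x v v =
      (h (s k) x v v - spd x v ^ 2 - δ (s k) * κ (s k) x v v) +
      δ (s k) * (κ (s k) x v v - κ₀ x v v) := by ring
  have h4 : |δ (s k) * (κ (s k) x v v - κ₀ x v v)| ≤ δ (s k) * (ε / 2 * spd x v ^ 2) := by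
    rw [abs_mul, abs_of_pos hp]
    exact mul_le_mul_of_nonneg_left h2 hp.le
  have h5 : 1 / ((s k : ℝ) + 1) * δ (s k) * spd x v ^ 2 ≤ ε / 2 * δ (s k) * spd x v ^ 2 :=
    mul_le_mul_of_nonneg_right (mul_le_mul_of_nonneg_right hk2.le hp.le) (sq_nonneg _)
  show |h (s k) x v v - spd x v ^ 2 - δ (s k) * κ₀ x v v| ≤ _
  rw [h3]
  calc _ ≤ _ := abs_add_le _ _
    _ ≤ ε / 2 * δ (s k) * spd x v ^ 2 + δ (s k) * (ε / 2 * spd x v ^ 2) :=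
        add_le_add (h1.trans h5) h4
    _ = ε * δ (s k) * spd x v ^ 2 := by ring

end LibNC38
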